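import Mathlib

/-!
# o-conjugacy classes of commutative monoids

Every partition of every nonempty set is the partition into o-conjugacy classes of a commutative
monoid on this set, and the elements which can be the identity element of such a monoid are
determined.
-/

set_option autoImplicit false

universe u

namespace Pool.Agent.Results.MP_45ad35_al.CommutativeMonoids

/-- o-conjugacy in a monoid `S` (here `S¹ = S`): `a g = g b` and `b h = h a` for some `g, h`. -/
def OConj {S : Type u} [Monoid S] (a b : S) : Prop :=
  ∃ g h : S, a * g = g * b ∧ b * h = h * a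

/-- Let `τ` be a partition of `X` with a block containing two different elements `e`, `e₀`, and let
an abelian group structure be given on the set of blocks, whose neutral element is this block. -/
theorem exists_monoid (X : Type u) (τ : Setoid X) (G : AddCommGroup (Quotient τ)) (e e₀ : X)
    (hne : e₀ ≠ e) (h0 : Quotient.mk τ e₀ = 0) (h1 : Quotient.mk τ e = 0) :
    ∃ _ : CommMonoid X, (1 : X) = e ∧
      (∀ a b : X, Quotient.mk τ (a * b) = Quotient.mk τ a + Quotient.mk τ b) ∧
      ∀ a b : X, OConj a b ↔ τ a b := by
  classical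
  let p : X → Quotient τ := Quotient.mk τ
  let r : Quotient τ → X := fun q => if q = 0 then e₀ else Quotient.out q
  have hr : ∀ q, p (r q) = q := by
    intro q
    by_cases h : q = 0
    · simp only [r, if_pos h]; rw [h]; exact h0
    · simp only [r, if_neg h]; exact Quotient.out_eq q
  have hre : ∀ q, r q ≠ e := by
    intro q hq
    have h2 : q = 0 := by rw [← hr q, hq]; exact h1
    have h3 : r q = e₀ := by simp only [r, if_pos h2]
    exact hne (h3.symm.trans hq)
  have hr0 : r 0 = e₀ := by simp [r]
  have hpe : p e = 0 := h1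
  let m : X → X → X := fun a b => if a = e then b else if b = e then a else r (p a + p b)
  have me : ∀ b, m e b = b := fun b => by simp [m]
  have em : ∀ a, m a e = a := fun a => by
    by_cases h : a = e
    · simp [m, h]
    · simp [m, h]
  have mm : ∀ a b, a ≠ e → b ≠ e → m a b = r (p a + p b) := fun a b ha hb => by simp [m, ha, hb]
  have mp : ∀ a b, p (m a b) = p a + p b := by
    intro a b
    by_cases ha : a = e
    · rw [ha, me, hpe, zero_add]
    · by_cases hb : b = e
      · rw [hb, em, hpe, add_zero]
      · rw [mm a b ha hb, hr]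
  let M : CommMonoid X :=
    { mul := m
      one := e
      one_mul := me
      mul_one := em
      mul_comm := fun a b => by
        show m a b = m b a
        by_cases ha : a = e
        · rw [ha, me, em]
        · by_cases hb : b = e
          · rw [hb, me, em]
          · rw [mm a b ha hb, mm b a hb ha, add_comm]
      mul_assoc := fun a b c => by
        show m (m a b) c = m a (m b c)
        by_cases ha : a = e
        · rw [ha, me, me]
        · by_cases hb : b = e
          · rw [hb, me, em]
          · by_cases hc : c = e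
            · rw [hc, em, em]
            · have h1 : m a b ≠ e := by rw [mm a b ha hb]; exact hre _
              have h2 : m b c ≠ e := by rw [mm b c hb hc]; exact hre _
              rw [mm _ _ h1 hc, mm _ _ ha h2, mp, mp, add_assoc] }
  refine ⟨M, rfl, fun a b => mp a b, fun a b => ?_⟩
  have hab : τ a b ↔ p a = p b := Quotient.eq.symm
  rw [hab]
  constructor
  · rintro ⟨g, h, h1, -⟩
    have h2 : p (m a g) = p (m g b) := congrArg p h1
    rw [mp, mp, add_comm (p g)] at h2
    exact add_right_cancel h2
  · intro h
    have key : ∀ x, m x e₀ = r (p x) := by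
      intro x
      by_cases hx : x = e
      · rw [hx, me, hpe, hr0]
      · rw [mm x e₀ hx hne]
        have : p e₀ = 0 := h0
        rw [this, add_zero]
    have key2 : ∀ x, m e₀ x = r (p x) := by
      intro x
      by_cases hx : x = e
      · rw [hx, em, hpe, hr0]
      · rw [mm e₀ x hne hx]
        have : p e₀ = 0 := h0
        rw [this, zero_add]
    refine ⟨e₀, e₀, ?_, ?_⟩
    · show m a e₀ = m e₀ b
      rw [key, key2, h]
    · show m b e₀ = m e₀ a
      rw [key, key2, h]

/-- Every nonempty set carries an abelian group structure with a prescribed neutral element. -/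
theorem exists_group (Q : Type u) (z : Q) : ∃ _ : AddCommGroup Q, (0 : Q) = z := by
  have h : Nonempty (AddCommGroup Q) := by
    cases finite_or_infinite Q with
    | inl h =>
      obtain ⟨n, ⟨f⟩⟩ := Finite.exists_equiv_fin Q
      cases n with
      | zero => exact (IsEmpty.false (f z)).elim
      | succ n =>
        have f' : Q ≃ ZMod (n + 1) := f
        exact ⟨f'.addCommGroup⟩
    | inr h =>
      obtain ⟨f⟩ : Nonempty (Field Q) := Infinite.nonempty_field
      exact ⟨inferInstance⟩
  obtain ⟨G⟩ := h
  classical
  let s : Q ≃ Q := Equiv.swap (0 : Q) z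
  refine ⟨s.addCommGroup, ?_⟩
  show s.symm 0 = z
  simp [s]

/-- If there are infinitely many blocks and `{e}` is a block, there is a commutative monoid with
identity element `e`. -/
theorem exists_monoid_infinite (X : Type u) (τ : Setoid X) (e : X) (he : ∀ a, τ a e → a = e)
    (hinf : Infinite (Quotient τ)) :
    ∃ _ : CommMonoid X, (1 : X) = e ∧ ∀ a b : X, OConj a b ↔ τ a b := by
  classical
  -- a free commutative monoid on the set of blocks
  obtain ⟨f₀⟩ : Nonempty (Quotient τ ≃ (Quotient τ →₀ ℕ)) := by
    rw [← Cardinal.eq, Cardinal.mk_finsupp_nat, max_eq_left (Cardinal.aleph0_le_mk _)]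
  let f : Quotient τ ≃ (Quotient τ →₀ ℕ) := (Equiv.swap (Quotient.mk τ e) (f₀.symm 0)).trans f₀
  let p : X → (Quotient τ →₀ ℕ) := fun a => f (Quotient.mk τ a)
  have hpe : p e = 0 := by simp [p, f]
  have hp0 : ∀ a, p a = 0 → a = e := by
    intro a ha
    have h1 : Quotient.mk τ a = Quotient.mk τ e := f.injective (ha.trans hpe.symm)
    exact he a (Quotient.eq.1 h1)
  have hpp : ∀ a b, p a = p b ↔ τ a b := by
    intro a b
    rw [← Quotient.eq (r := τ)]
    exact f.injective.eq_iff
  let r : (Quotient τ →₀ ℕ) → X := fun q => Quotient.out (f.symm q)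
  have hr : ∀ q, p (r q) = q := by
    intro q
    show f (Quotient.mk τ (Quotient.out (f.symm q))) = q
    rw [show Quotient.mk τ (Quotient.out (f.symm q)) = f.symm q from Quotient.out_eq _]
    exact f.apply_symm_apply q
  let m : X → X → X := fun a b => if a = e then b else if b = e then a else r (p a + p b)
  have me : ∀ b, m e b = b := fun b => by simp [m]
  have em : ∀ a, m a e = a := fun a => by
    by_cases h : a = e
    · simp [m, h]
    · simp [m, h]
  have mm : ∀ a b, a ≠ e → b ≠ e → m a b = r (p a + p b) := fun a b ha hb => by simp [m, ha, hb]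
  have mp : ∀ a b, p (m a b) = p a + p b := by
    intro a b
    by_cases ha : a = e
    · rw [ha, me, hpe, zero_add]
    · by_cases hb : b = e
      · rw [hb, em, hpe, add_zero]
      · rw [mm a b ha hb, hr]
  have mne : ∀ a b, a ≠ e → m a b ≠ e := by
    intro a b ha h
    have h1 : p a + p b = 0 := by rw [← mp, h, hpe]
    exact ha (hp0 a (by
      have := congrArg (fun g : Quotient τ →₀ ℕ => g) h1
      ext q
      have h2 := DFunLike.congr_fun this q
      simp only [Finsupp.add_apply, Finsupp.zero_apply] at h2 ⊢
      omega))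
  let M : CommMonoid X :=
    { mul := m
      one := e
      one_mul := me
      mul_one := em
      mul_comm := fun a b => by
        show m a b = m b a
        by_cases ha : a = e
        · rw [ha, me, em]
        · by_cases hb : b = e
          · rw [hb, me, em]
          · rw [mm a b ha hb, mm b a hb ha, add_comm]
      mul_assoc := fun a b c => by
        show m (m a b) c = m a (m b c)
        by_cases ha : a = e
        · rw [ha, me, me]
        · by_cases hb : b = e
          · rw [hb, me, em]
          · by_cases hc : c = e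
            · rw [hc, em, em]
            · rw [mm _ _ (mne a b ha) hc, mm _ _ ha (mne b c hb), mp, mp, add_assoc] }
  refine ⟨M, rfl, fun a b => ?_⟩
  rw [← hpp]
  constructor
  · rintro ⟨g, h, h1, -⟩
    have h2 : p (m a g) = p (m g b) := congrArg p h1
    rw [mp, mp, add_comm (p g)] at h2
    exact add_right_cancel h2
  · intro h
    by_cases ha : a = e
    · have hb : b = e := hp0 b (by rw [← h, ha, hpe])
      exact ⟨1, 1, by rw [ha, hb, mul_one, one_mul], by rw [ha, hb, mul_one, one_mul]⟩
    · have hb : b ≠ e := by
        intro hb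
        exact ha (hp0 a (by rw [h, hb, hpe]))
      refine ⟨a, a, ?_, ?_⟩
      · show m a a = m a b
        rw [mm a a ha ha, mm a b ha hb, h]
      · show m b a = m a a
        rw [mm a a ha ha, mm b a hb ha, h]

/-- If there are finitely many blocks and the identity element forms a block, all blocks are
singletons. -/
theorem trivial_of_finite (X : Type u) (τ : Setoid X) [M : CommMonoid X]
    (hM : ∀ a b : X, OConj a b ↔ τ a b) (he : ∀ a, τ a 1 → a = 1) (hfin : Finite (Quotient τ))
    (a b : X) (hab : τ a b) : a = b := by
  have hunit : ∀ a : X, IsUnit a := by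
    intro a
    obtain ⟨i, j, hij, hτ⟩ : ∃ i j : ℕ, i < j ∧ τ (a ^ i) (a ^ j) := by
      obtain ⟨i, j, hne, h⟩ :=
        Finite.exists_ne_map_eq_of_infinite (fun n : ℕ => Quotient.mk τ (a ^ n))
      have h' : τ (a ^ i) (a ^ j) := Quotient.eq.1 h
      rcases lt_or_gt_of_ne hne with hlt | hlt
      · exact ⟨i, j, hlt, h'⟩
      · exact ⟨j, i, hlt, τ.symm h'⟩
    obtain ⟨g, -, hg, -⟩ := (hM _ _).2 hτ
    have hpow : a ^ j = a ^ i * a ^ (j - i) := by rw [← pow_add]; congr 1; omega
    have h1 : OConj (a ^ (j - i)) (1 : X) := by
      refine ⟨a ^ i * g, a ^ i * g, ?_, ?_⟩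
      · calc a ^ (j - i) * (a ^ i * g) = g * (a ^ i * a ^ (j - i)) := by
              rw [mul_comm, mul_comm (a ^ i) g, mul_assoc]
          _ = a ^ i * g * 1 := by rw [← hpow, ← hg, mul_one]
      · calc 1 * (a ^ i * g) = g * a ^ j := by rw [one_mul, hg]
          _ = a ^ i * g * a ^ (j - i) := by
              rw [hpow, mul_comm (a ^ i) g, mul_assoc]
    have h2 : a ^ (j - i) = 1 := he _ ((hM _ _).1 h1)
    exact IsUnit.of_pow_eq_one h2 (by omega)
  obtain ⟨g, -, hg, -⟩ := (hM _ _).2 hab
  rw [mul_comm g b] at hg
  exact (hunit g).mul_right_cancel hg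

/-- **Every partition is the partition into the o-conjugacy classes of a commutative monoid.**
(1) For every nonempty set `X` and every partition `τ` of `X` there is a commutative monoid
structure on `X` whose o-conjugacy classes are exactly the blocks of `τ`.
(2) An element `e` can be the identity element of such a monoid if and only if the block of `e` has
at least two elements, or all blocks are singletons, or there are infinitely many blocks. -/
theorem result (X : Type u) [Nonempty X] (τ : Setoid X) :
    (∃ _ : CommMonoid X, ∀ a b : X, OConj a b ↔ τ a b) ∧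
    ∀ e : X, (∃ _ : CommMonoid X, (1 : X) = e ∧ ∀ a b : X, OConj a b ↔ τ a b) ↔
      ((∃ e₀ : X, e₀ ≠ e ∧ τ e₀ e) ∨ (∀ a b : X, τ a b → a = b) ∨ Infinite (Quotient τ)) := by
  have h2 : ∀ e e₀ : X, e₀ ≠ e → τ e₀ e → ∃ _ : CommMonoid X, (1 : X) = e ∧
      ∀ a b : X, OConj a b ↔ τ a b := by
    intro e e₀ hne h
    obtain ⟨G, hG⟩ := exists_group (Quotient τ) (Quotient.mk τ e)
    obtain ⟨M, hM1, -, hM⟩ := exists_monoid X τ G e e₀ hne ((Quotient.eq.2 h).trans hG.symm) hG.symm
    exact ⟨M, hM1, hM⟩
  have h3 : (∀ a b : X, τ a b → a = b) → ∀ e : X, ∃ _ : CommMonoid X, (1 : X) = e ∧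
      ∀ a b : X, OConj a b ↔ τ a b := by
    intro hτ e
    obtain ⟨G, hG⟩ := exists_group X e
    let M : CommGroup X := @Multiplicative.commGroup X G
    refine ⟨M.toCommMonoid, hG, fun a b => ?_⟩
    constructor
    · rintro ⟨g, h, h1, -⟩
      rw [mul_comm g b] at h1
      rw [mul_right_cancel h1]
    · intro h
      rw [hτ a b h]
      exact ⟨1, 1, by rw [mul_comm], by rw [mul_comm]⟩
  refine ⟨?_, fun e => ⟨?_, ?_⟩⟩
  · by_cases h : ∀ a b : X, τ a b → a = b
    · obtain ⟨e⟩ := ‹Nonempty X›
      obtain ⟨M, -, hM⟩ := h3 h e
      exact ⟨M, hM⟩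
    · push Not at h
      obtain ⟨a, b, hab, hne⟩ := h
      obtain ⟨M, -, hM⟩ := h2 b a hne hab
      exact ⟨M, hM⟩
  · rintro ⟨M, rfl, hM⟩
    by_cases h1 : ∃ e₀ : X, e₀ ≠ 1 ∧ τ e₀ 1
    · exact Or.inl h1
    · right
      push Not at h1
      by_cases hfin : Finite (Quotient τ)
      · left
        intro a b hab
        exact trivial_of_finite X τ hM (fun a ha => by
          by_contra hne
          exact h1 a hne ha) hfin a b hab
      · right
        exact not_finite_iff_infinite.1 hfin
  · rintro (⟨e₀, hne, h⟩ | h | h)
    · exact h2 e e₀ hne h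
    · exact h3 h e
    · by_cases h1 : ∃ e₀ : X, e₀ ≠ e ∧ τ e₀ e
      · obtain ⟨e₀, hne, h1⟩ := h1
        exact h2 e e₀ hne h1
      · push Not at h1
        exact exists_monoid_infinite X τ e (fun a ha => by
          by_contra hne
          exact h1 a hne ha) h

end Pool.Agent.Results.MP_45ad35_al.CommutativeMonoids
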